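import Pool.Agent.Y677.RSZ.Fin
import Pool.Agent.TH464.PW.Quad

/-! One quadratic polynomial at prime arguments: narrow progressions. -/

set_option autoImplicit false

namespace Pool.Agent.R498.QP

open Polynomial Finset Filter
open Pool.Agent.W123.RP Pool.Agent.H373R2.T7 Pool.Agent.W123.RU Pool.Agent.W123.RU.Poly
open Pool.Agent.TH464.PW
open Pool.Agent.W182.PW (ext)
open Pool.Agent.TH977.PW (N Rough Few RoughX roughX_iff sys_ext lower_input prime_input N_mono)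

theorem sys_quad (a b c : ℤ) (ha : 0 < a)
    (hg : ∀ p : ℕ, p.Prime → ¬ ((p : ℤ) ∣ a ∧ (p : ℤ) ∣ b ∧ (p : ℤ) ∣ c))
    (hD : ¬ IsSquare (b ^ 2 - 4 * a * c))
    (hadm : ∀ p : ℕ, p.Prime → ∃ m : ℕ, ¬ p ∣ m ∧ ¬ (p : ℤ) ∣ a * (m : ℤ) ^ 2 + b * m + c) :
    Sys (ext (fun _ : Fin 1 => quad a b c)) :=
  sys_ext (fun _ : Fin 1 => quad a b c)
    (fun _ => quad_irr a b c ha.ne' hg hD)
    (fun _ => by rw [quad_deg a b c ha.ne']; norm_num)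
    (fun _ => by rw [quad_lead a b c ha.ne']; exact ha)
    (fun _ _ _ => Subsingleton.elim _ _)
    (fun _ h => by
      have h1 := quad_deg a b c ha.ne'
      rw [h, natDegree_X] at h1
      omega)
    (fun p hp => by
      obtain ⟨m, h1, h2⟩ := hadm p hp
      refine ⟨m, h1, fun _ => ?_⟩
      rw [quad_eval]
      exact h2)

theorem narrow_quad (a b c : ℤ) (ha : 0 < a)
    (hg : ∀ p : ℕ, p.Prime → ¬ ((p : ℤ) ∣ a ∧ (p : ℤ) ∣ b ∧ (p : ℤ) ∣ c))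
    (hD : ¬ IsSquare (b ^ 2 - 4 * a * c))
    (hadm : ∀ p : ℕ, p.Prime → ∃ m : ℕ, ¬ p ∣ m ∧ ¬ (p : ℤ) ∣ a * (m : ℤ) ^ 2 + b * m + c)
    (θ : ℝ) (hθ : 0 < θ) (r : ℕ) (hr : 2 ≤ r) (l : ℕ) (hl : 2 ≤ l) (ε : ℝ) (hε : 0 < ε) :
    ∃ B : ℕ, ∀ᶠ X : ℕ in atTop, ∀ Y : ℕ, (X : ℝ) ^ θ ≤ Y → Y ≤ X →
      ∀ A : Set ℕ, (∀ m ∈ A, (∀ p : ℕ, p.Prime → p ∣ m → (m : ℝ) ^ (1 / (r : ℝ)) < (p : ℝ)) ∧
        ∀ p : ℕ, p.Prime → (p : ℤ) ∣ a * (m : ℤ) ^ 2 + b * m + c →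
          (m : ℝ) ^ (1 / (r : ℝ)) < (p : ℝ)) →
      (N (Pool.Agent.Y677.RSZ.Outside A l (Real.log X ^ B) X (X + Y)) X (X + Y) : ℝ) ≤
        ε * Y / Real.log X ^ 2 := by
  obtain ⟨B, hB⟩ := Pool.Agent.Y677.RSZ.narrow _ (sys_quad a b c ha hg hD hadm) θ hθ r hr l hl ε hε
  refine ⟨B, ?_⟩
  filter_upwards [hB] with X hX Y hXY hYX A hA
  have h := hX Y hXY hYX A (fun m hm => (roughX_iff _ r m).1 ⟨(hA m hm).1, fun _ p hp hd => by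
    rw [quad_eval] at hd
    exact (hA m hm).2 p hp hd⟩)
  have e : Fintype.card (Option (Fin 1)) = 2 := by simp
  rw [e] at h
  exact h

end Pool.Agent.R498.QP
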