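import Pool.Agent.TH464.PW.Quad

/-! Two systems of quadratic polynomials. -/

set_option autoImplicit false

namespace Pool.Agent.R498.QS

open Polynomial
open Pool.Agent.W123.RU Pool.Agent.TH464.PW

theorem irr_one (c : ℤ) (h : ¬ IsSquare ((0 : ℤ) ^ 2 - 4 * 1 * c)) : Irreducible (quad 1 0 c) := by
  apply quad_irr 1 0 c one_ne_zero _ h
  rintro p hp ⟨h1, -, -⟩
  exact hp.one_lt.ne' (Nat.dvd_one.1 (by exact_mod_cast h1))

/-- the system `X ^ 2 + 1` -/
theorem sys1 : Poly.Sys (fun _ : Fin 1 => quad 1 0 1) where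
  irr := fun _ => irr_one 1 (by rintro ⟨r, hr⟩; nlinarith [mul_self_nonneg r])
  deg := fun _ => by rw [quad_deg 1 0 1 one_ne_zero]; norm_num
  lead := fun _ => by rw [quad_lead 1 0 1 one_ne_zero]; norm_num
  inj := fun _ _ _ => Subsingleton.elim _ _
  adm := fun p hp => ⟨0, fun _ h => by
    rw [quad_eval] at h
    norm_num at h
    exact hp.one_lt.ne' (Nat.dvd_one.1 (by exact_mod_cast h))⟩

/-- the constants `1, 3` -/
def cc : Fin 2 → ℤ := ![1, 3]

/-- the system `X ^ 2 + 1, X ^ 2 + 3` -/
theorem sys2 : Poly.Sys (fun i : Fin 2 => quad 1 0 (cc i)) where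
  irr := fun i => by
    apply irr_one
    rintro ⟨r, hr⟩
    have : 0 < cc i := by fin_cases i <;> simp [cc]
    nlinarith [mul_self_nonneg r]
  deg := fun i => by rw [quad_deg 1 0 _ one_ne_zero]; norm_num
  lead := fun i => by rw [quad_lead 1 0 _ one_ne_zero]; norm_num
  inj := fun i j hij => by
    have h1 := congrArg (fun P : ℤ[X] => P.eval 0) hij
    simp only [quad_eval] at h1
    fin_cases i <;> fin_cases j <;> simp [cc] at h1 ⊢
  adm := fun p hp => by
    by_cases h3 : p = 3
    · refine ⟨1, fun i h => ?_⟩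
      rw [quad_eval] at h
      subst h3
      fin_cases i <;> simp [cc] at h <;> omega
    · refine ⟨0, fun i h => ?_⟩
      rw [quad_eval] at h
      fin_cases i <;> simp [cc] at h
      · exact hp.one_lt.ne' (Nat.dvd_one.1 (by exact_mod_cast h))
      · have h5 : p ∣ 3 := by exact_mod_cast h
        exact h3 ((Nat.prime_dvd_prime_iff_eq hp Nat.prime_three).1 h5)

end Pool.Agent.R498.QS
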