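import Pool.Agent.TH977.PW.Inst
import Pool.Agent.R498.QS
import Pool.Agent.R498.QP

/-! Regular points: all exponents `r`. -/

set_option autoImplicit false

namespace Pool.Agent.R498.RP

open Polynomial Finset Filter
open Pool.Agent.W123.RU
open Pool.Agent.TH977.PW (N Irregular Rough Few RoughX)

lemma rpow_mono (m r s : ℕ) (hr : 1 ≤ r) (hrs : r ≤ s) (hm : 1 ≤ m) :
    (m : ℝ) ^ (1 / (s : ℝ)) ≤ (m : ℝ) ^ (1 / (r : ℝ)) := by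
  apply Real.rpow_le_rpow_of_exponent_le (by exact_mod_cast hm)
  apply one_div_le_one_div_of_le
  · have : 0 < r := by omega
    exact_mod_cast this
  · exact_mod_cast hrs

/-- integer arguments -/
theorem final_all {ι : Type} [Fintype ι] [Nonempty ι] (f : ι → ℤ[X]) (hf : Poly.Sys f)
    (k : ℕ) (hk : Fintype.card ι = k) (θ : ℝ) (hθ : 0 < θ) (hθ1 : θ ≤ 1) (r : ℕ) (hr : 1 ≤ r) :
    ∀ ε : ℝ, 0 < ε → ∃ c : ℝ, 0 < c ∧ ∀ δ : ℝ, 0 < δ → ∃ B : ℕ,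
      ∀ᶠ X : ℕ in atTop, ∀ Y : ℕ, (X : ℝ) ^ θ ≤ Y → 2 * Y ≤ X →
        ∀ A : Set ℕ, (∀ m ∈ A, 1 ≤ m ∧ Rough f r m) →
        (N (Irregular A k c δ B X Y) X (X + Y) : ℝ) ≤ ε * (Y / Real.log X ^ k) := by
  obtain ⟨r0, hr0, h⟩ := Pool.Agent.TH977.PW.final f hf (fun s => {m | Rough f s m})
    (fun _ => Set.univ) k hk (fun _ _ _ hm => hm) (fun _ _ _ _ _ => Set.mem_univ _) θ hθ hθ1
  intro ε hε
  obtain ⟨c, hc, h2⟩ := (h (max r0 r) (le_max_left _ _)).2 ε hε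
  refine ⟨c, hc, fun δ hδ => ?_⟩
  obtain ⟨B, h3⟩ := h2 δ hδ
  refine ⟨B, ?_⟩
  filter_upwards [h3] with X hX Y hXY hYX A hA
  rw [← mul_div_assoc]
  refine hX Y hXY hYX A (fun m hm i p hp hd => ?_)
  exact lt_of_le_of_lt (rpow_mono m r _ hr (le_max_right _ _) (hA m hm).1) ((hA m hm).2 i p hp hd)

/-- one quadratic polynomial, prime or rough arguments -/
theorem final_quad (a b c : ℤ) (ha : 0 < a)
    (hg : ∀ p : ℕ, p.Prime → ¬ ((p : ℤ) ∣ a ∧ (p : ℤ) ∣ b ∧ (p : ℤ) ∣ c))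
    (hD : ¬ IsSquare (b ^ 2 - 4 * a * c))
    (hadm : ∀ p : ℕ, p.Prime → ∃ m : ℕ, ¬ p ∣ m ∧ ¬ (p : ℤ) ∣ a * (m : ℤ) ^ 2 + b * m + c)
    (θ : ℝ) (hθ : 0 < θ) (hθ1 : θ ≤ 1) (r : ℕ) (hr : 1 ≤ r) :
    ∀ ε : ℝ, 0 < ε → ∃ c' : ℝ, 0 < c' ∧ ∀ δ : ℝ, 0 < δ → ∃ B : ℕ,
      ∀ᶠ X : ℕ in atTop, ∀ Y : ℕ, (X : ℝ) ^ θ ≤ Y → 2 * Y ≤ X →
        ∀ A : Set ℕ, (∀ m ∈ A, 1 ≤ m ∧ (∀ p : ℕ, p.Prime → p ∣ m → (m : ℝ) ^ (1 / (r : ℝ)) < (p : ℝ)) ∧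
          ∀ p : ℕ, p.Prime → (p : ℤ) ∣ a * (m : ℤ) ^ 2 + b * m + c →
          (m : ℝ) ^ (1 / (r : ℝ)) < (p : ℝ)) →
        (N (Irregular A 2 c' δ B X Y) X (X + Y) : ℝ) ≤ ε * (Y / Real.log X ^ 2) := by
  intro ε hε
  obtain ⟨c', hc, h2⟩ := final_all _ (Pool.Agent.R498.QP.sys_quad a b c ha hg hD hadm) 2 (by simp)
    θ hθ hθ1 r hr ε hε
  refine ⟨c', hc, fun δ hδ => ?_⟩
  obtain ⟨B, h3⟩ := h2 δ hδ
  refine ⟨B, ?_⟩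
  filter_upwards [h3] with X hX Y hXY hYX A hA
  refine hX Y hXY hYX A (fun m hm => ⟨(hA m hm).1, ?_⟩)
  refine (Pool.Agent.TH977.PW.roughX_iff _ r m).1 ⟨(hA m hm).2.1, fun _ p hp hd => ?_⟩
  rw [Pool.Agent.TH464.PW.quad_eval] at hd
  exact (hA m hm).2.2 p hp hd

end Pool.Agent.R498.RP
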