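import Pool.Agent.Y781.JR.Dens
import Pool.Agent.Y882.JR.Lim
import Pool.Agent.W366.DC.SFX
import Pool.Agent.Y445.JRB.Buch

/-! Primes of the form `n ^ 2 + 1` in almost all short intervals: the upper bound. -/

set_option autoImplicit false

namespace Pool.Agent.R498.SU

open Filter Finset Topology
open Pool.Agent.W23.DC
open Pool.Agent.Y882.JR
open Pool.Agent.Y781.JR

/-- the number of the `n` in `(N, N + H]` such that `n ^ 2 + 1` is a prime -/
def primesIn (N H : ℕ) : ℕ := ((Ioc N (N + H)).filter (fun n : ℕ => (n ^ 2 + 1).Prime)).card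

theorem RR_one (x : ℕ) : RR 1 (x + 1) =
    ∏ p ∈ (Finset.range (x + 1)).filter (fun p => p.Prime ∧ Odd p),
            (1 - (((ZMod.χ₄ (p : ZMod 4) : ℤ) : ℝ)) / ((p : ℝ) - 1)) := by
  unfold RR
  have hs : (range (x + 1)).filter (fun p : ℕ => p.Prime ∧ p ≠ 2) =
      (range (x + 1)).filter (fun p : ℕ => p.Prime ∧ Odd p) := by
    apply filter_congr
    intro p _
    constructor
    · rintro ⟨h1, h2⟩
      exact ⟨h1, h1.odd_of_ne_two h2⟩
    · rintro ⟨h1, h2⟩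
      refine ⟨h1, fun h => ?_⟩
      rw [h] at h2
      exact absurd h2 (by decide)
  rw [hs]
  refine prod_congr rfl (fun p hp => ?_)
  have h := (mem_filter.1 hp).2.2
  rw [jacobiSym.at_neg_one h]

open Classical in
theorem split (z : ℝ) (N H : ℕ) (M : ℕ) (hM : ∀ n : ℕ, M < n → z ≤ (n : ℝ) ^ 2 + 1) :
    primesIn N H ≤ rough 1 z N H + (if M ≤ N then 0 else M) := by
  unfold primesIn rough
  have h1 : (Ioc N (N + H)).filter (fun n : ℕ => (n ^ 2 + 1).Prime) ⊆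
      (Finset.Ioc N (N + H)).filter
        (fun n : ℕ => ∀ p : ℕ, p.Prime → (p : ℤ) ∣ (n : ℤ) ^ 2 + 1 → z ≤ p) ∪
      (if M ≤ N then ∅ else Ioc 0 M) := by
    intro n hn
    rw [mem_filter, mem_Ioc] at hn
    rw [mem_union, mem_filter, mem_Ioc]
    by_cases hMn : M < n
    · left
      refine ⟨hn.1, fun p hp hd => ?_⟩
      have h2 : p ∣ n ^ 2 + 1 := by exact_mod_cast hd
      rw [(Nat.prime_dvd_prime_iff_eq hp hn.2).1 h2]
      push_cast
      exact hM n hMn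
    · right
      push Not at hMn
      rw [if_neg (by omega), mem_Ioc]
      omega
  refine (card_le_card h1).trans ((card_union_le _ _).trans ?_)
  apply Nat.add_le_add_left
  split_ifs
  · simp
  · simp

open Classical in
theorem main : ∃ L : ℝ, 0 < L ∧
    Tendsto (fun x : ℕ => ∏ p ∈ (Finset.range (x + 1)).filter (fun p => p.Prime ∧ Odd p),
            (1 - (((ZMod.χ₄ (p : ZMod 4) : ℤ) : ℝ)) / ((p : ℝ) - 1))) atTop (𝓝 L) ∧
    ∀ h τ δ ε : ℝ, 0 < h → h ≤ 1 → 1 / 2 ≤ τ → τ < 1 → 0 < δ → 0 < ε →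
      ∀ᶠ X : ℕ in atTop, (((Icc 1 X).filter (fun N : ℕ =>
        (4 / τ + δ) * (L / 2 * ((X : ℝ) ^ h / Real.log X)) <
          (primesIn N ⌊(X : ℝ) ^ h⌋₊ : ℝ))).card : ℝ) ≤ (X : ℝ) ^ (2 * τ - h + ε) := by
  obtain ⟨A0, F, f, hSF⟩ := Pool.Agent.W366.DC.SFX
  have hA : A0 = 2 * Real.exp Real.eulerMascheroniConstant :=
    A0_eq Pool.Agent.Y445.JRB.t hSF
  have hns : ¬ IsSquare (-(1 : ℤ)) := by
    rintro ⟨r, hr⟩
    nlinarith [mul_self_nonneg r]
  obtain ⟨C, hC, hR⟩ := RR_conv 1 hns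
  refine ⟨C, hC, ?_, ?_⟩
  · have := hR.comp (tendsto_add_atTop_nat 1)
    refine this.congr (fun x => ?_)
    exact RR_one x
  intro h τ δ ε hh hh1 hτ1 hτ hδ hε
  have hτ0 : 0 < τ := by linarith
  obtain ⟨C', hC', hN', hz⟩ := Pool.Agent.Y781.JR.t 1 hns
  -- the two constants agree
  have hCC : C' = C := by
    refine tendsto_nhds_unique hN' ?_
    refine hR.congr (fun N => ?_)
    rw [dens_eq, Nat.ceil_natCast]
    change RR 1 N = GG N * RR 1 N / GG N
    rw [mul_div_cancel_left₀ _ (GG_pos N).ne']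
  rw [hCC] at hz
  have hF1 : F 1 = A0 := by rw [hSF.F3 1 le_rfl (by norm_num), div_one]
  set γ := Real.eulerMascheroniConstant with hγ
  have hE : 0 < Real.exp γ := Real.exp_pos _
  have hXr : Tendsto (fun X : ℕ => (X : ℝ)) atTop atTop := tendsto_natCast_atTop_atTop
  -- dens at X ^ τ
  have hz2 : Tendsto (fun X : ℕ => dens 1 ((X : ℝ) ^ τ) * Real.log X) atTop
      (𝓝 (C * Real.exp (-γ) / τ)) := by
    have h1 := (hz.comp ((tendsto_rpow_atTop hτ0).comp hXr)).div_const τ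
    refine h1.congr' ?_
    filter_upwards [eventually_gt_atTop 0] with X hX
    have hX0 : (0 : ℝ) < X := by exact_mod_cast hX
    simp only [Function.comp]
    rw [Real.log_rpow hX0]
    field_simp
  -- choice of the small constant
  set δ' : ℝ := δ * Real.exp γ * τ / 8 with hδ'
  have hδ'0 : 0 < δ' := by positivity
  have hlim : Tendsto (fun X : ℕ => (A0 + δ') * (dens 1 ((X : ℝ) ^ τ) * Real.log X)) atTop
      (𝓝 ((A0 + δ') * (C * Real.exp (-γ) / τ))) := hz2.const_mul _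
  have hval : (A0 + δ') * (C * Real.exp (-γ) / τ) = (4 / τ + δ / 4) * (C / 2) := by
    rw [hA, hδ', Real.exp_neg]
    field_simp
    ring
  rw [hval] at hlim
  have ev1 : ∀ᶠ X : ℕ in atTop, (A0 + δ') * (dens 1 ((X : ℝ) ^ τ) * Real.log X) <
      (4 / τ + δ / 2) * (C / 2) := by
    apply hlim.eventually (gt_mem_nhds _)
    have : 0 < δ * C := by positivity
    nlinarith
  have H := finJR A0 F f hSF 1 hns τ 1 h δ' (ε / 2) hτ1 hτ le_rfl hh hh1 hδ'0 (by linarith)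
  -- the small n
  have hsmall : ∀ᶠ X : ℕ in atTop, ∀ n : ℕ, ⌊(X : ℝ) ^ (τ / 2)⌋₊ < n →
      (X : ℝ) ^ τ ≤ (n : ℝ) ^ 2 + 1 := by
    filter_upwards [eventually_gt_atTop 0] with X hX n hn
    have hX0 : (0 : ℝ) < X := by exact_mod_cast hX
    have h1 : (X : ℝ) ^ (τ / 2) < n := Nat.lt_of_floor_lt hn
    have h2 : (X : ℝ) ^ τ = ((X : ℝ) ^ (τ / 2)) ^ 2 := by
      rw [← Real.rpow_natCast, ← Real.rpow_mul hX0.le]
      norm_num
    rw [h2]
    have h3 : 0 ≤ (X : ℝ) ^ (τ / 2) := by positivity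
    nlinarith
  have evε : ∀ᶠ X : ℕ in atTop, (2 : ℝ) ≤ (X : ℝ) ^ (ε / 2) :=
    ((tendsto_rpow_atTop (by linarith)).comp hXr).eventually_ge_atTop _
  rcases lt_or_ge (τ / 2) h with hc | hc
  · -- the small n are negligible
    have ev2 : ∀ᶠ X : ℕ in atTop, (X : ℝ) ^ (τ / 2) ≤ δ / 2 * (C / 2 * ((X : ℝ) ^ h / Real.log X)) := by
      have h1 := (isLittleO_log_rpow_atTop (show 0 < h - τ / 2 by linarith)).bound
        (show 0 < δ / 2 * (C / 2) by positivity)
      filter_upwards [hXr.eventually h1, eventually_ge_atTop 3] with X hX hX3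
      have hX3r : (3 : ℝ) ≤ X := by exact_mod_cast hX3
      have hX0 : (0 : ℝ) < X := by linarith
      have hl : 0 < Real.log X := Real.log_pos (by linarith)
      rw [Real.norm_of_nonneg hl.le, Real.norm_of_nonneg (by positivity)] at hX
      have h2 : (X : ℝ) ^ h = (X : ℝ) ^ (h - τ / 2) * (X : ℝ) ^ (τ / 2) := by
        rw [← Real.rpow_add hX0]; congr 1; ring
      rw [h2]
      have h3 : 0 < (X : ℝ) ^ (τ / 2) := by positivity
      have h4 : δ / 2 * (C / 2 * ((X : ℝ) ^ (h - τ / 2) * (X : ℝ) ^ (τ / 2) / Real.log X)) =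
          (δ / 2 * (C / 2) * (X : ℝ) ^ (h - τ / 2)) / Real.log X * (X : ℝ) ^ (τ / 2) := by ring
      rw [h4]
      have h5 : 1 ≤ (δ / 2 * (C / 2) * (X : ℝ) ^ (h - τ / 2)) / Real.log X := by
        rw [le_div_iff₀ hl]; linarith
      nlinarith
    filter_upwards [H, ev1, ev2, hsmall, evε, eventually_ge_atTop 3] with X hX e1 e2 e3 e4 hX3
    have hX3r : (3 : ℝ) ≤ X := by exact_mod_cast hX3
    have hX0 : (0 : ℝ) < X := by linarith
    have hl : 0 < Real.log X := Real.log_pos (by linarith)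
    rw [div_one, hF1] at hX
    refine le_trans ?_ (hX.trans ?_)
    · norm_cast
      apply card_le_card
      intro N hN
      rw [mem_filter] at hN ⊢
      refine ⟨hN.1, fun hcon => ?_⟩
      have h1 := split ((X : ℝ) ^ τ) N ⌊(X : ℝ) ^ h⌋₊ ⌊(X : ℝ) ^ (τ / 2)⌋₊ e3
      have h2 : (primesIn N ⌊(X : ℝ) ^ h⌋₊ : ℝ) ≤ rough 1 ((X : ℝ) ^ τ) N ⌊(X : ℝ) ^ h⌋₊ +
          (X : ℝ) ^ (τ / 2) := by
        have h3 : ((if ⌊(X : ℝ) ^ (τ / 2)⌋₊ ≤ N then 0 else ⌊(X : ℝ) ^ (τ / 2)⌋₊ : ℕ) : ℝ) ≤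
            (X : ℝ) ^ (τ / 2) := by
          split_ifs
          · push_cast; positivity
          · exact Nat.floor_le (by positivity)
        have h4 : (primesIn N ⌊(X : ℝ) ^ h⌋₊ : ℝ) ≤
            ((rough 1 ((X : ℝ) ^ τ) N ⌊(X : ℝ) ^ h⌋₊ +
              (if ⌊(X : ℝ) ^ (τ / 2)⌋₊ ≤ N then 0 else ⌊(X : ℝ) ^ (τ / 2)⌋₊) : ℕ) : ℝ) := by
          exact_mod_cast h1
        rw [Nat.cast_add] at h4
        linarith
      have h5 := hcon.2
      have h6 : (A0 + δ') * ((X : ℝ) ^ h * dens 1 ((X : ℝ) ^ τ)) ≤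
          (4 / τ + δ / 2) * (C / 2 * ((X : ℝ) ^ h / Real.log X)) := by
        have h7 : (A0 + δ') * ((X : ℝ) ^ h * dens 1 ((X : ℝ) ^ τ)) =
            ((A0 + δ') * (dens 1 ((X : ℝ) ^ τ) * Real.log X)) * ((X : ℝ) ^ h / Real.log X) := by
          field_simp
        rw [h7]
        have h8 : 0 ≤ (X : ℝ) ^ h / Real.log X := by positivity
        have := mul_le_mul_of_nonneg_right e1.le h8
        linarith
      have h9 := hN.2
      linarith
    · apply Real.rpow_le_rpow_of_exponent_le (by linarith)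
      linarith
  · -- the small N are exceptional
    filter_upwards [H, ev1, hsmall, evε, eventually_ge_atTop 3] with X hX e1 e3 e4 hX3
    have hX3r : (3 : ℝ) ≤ X := by exact_mod_cast hX3
    have hX0 : (0 : ℝ) < X := by linarith
    have hl : 0 < Real.log X := Real.log_pos (by linarith)
    rw [div_one, hF1] at hX
    set M : ℕ := ⌊(X : ℝ) ^ (τ / 2)⌋₊ with hM
    have hsub : (Icc 1 X).filter (fun N : ℕ =>
        (4 / τ + δ) * (C / 2 * ((X : ℝ) ^ h / Real.log X)) <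
          (primesIn N ⌊(X : ℝ) ^ h⌋₊ : ℝ)) ⊆
        Ioc 0 M ∪ (Icc 1 X).filter (fun N =>
      ¬ ((f 1 - δ') * ((X : ℝ) ^ h * dens 1 ((X : ℝ) ^ τ)) ≤
          (rough 1 ((X : ℝ) ^ τ) N ⌊(X : ℝ) ^ h⌋₊ : ℝ) ∧
        (rough 1 ((X : ℝ) ^ τ) N ⌊(X : ℝ) ^ h⌋₊ : ℝ) ≤
          (A0 + δ') * ((X : ℝ) ^ h * dens 1 ((X : ℝ) ^ τ)))) := by
      intro N hN
      rw [mem_filter] at hN
      rw [mem_union, mem_filter, mem_Ioc]
      rcases Nat.lt_or_ge N M with hNM | hNM
      · left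
        have := (mem_Icc.1 hN.1).1
        omega
      · right
        refine ⟨hN.1, fun hcon => ?_⟩
        have h1 := split ((X : ℝ) ^ τ) N ⌊(X : ℝ) ^ h⌋₊ M e3
        rw [if_pos hNM, add_zero] at h1
        have h2 : (primesIn N ⌊(X : ℝ) ^ h⌋₊ : ℝ) ≤ rough 1 ((X : ℝ) ^ τ) N ⌊(X : ℝ) ^ h⌋₊ := by
          exact_mod_cast h1
        have h5 := hcon.2
        have h6 : (A0 + δ') * ((X : ℝ) ^ h * dens 1 ((X : ℝ) ^ τ)) ≤
            (4 / τ + δ / 2) * (C / 2 * ((X : ℝ) ^ h / Real.log X)) := by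
          have h7 : (A0 + δ') * ((X : ℝ) ^ h * dens 1 ((X : ℝ) ^ τ)) =
              ((A0 + δ') * (dens 1 ((X : ℝ) ^ τ) * Real.log X)) * ((X : ℝ) ^ h / Real.log X) := by
            field_simp
          rw [h7]
          have h8 : 0 ≤ (X : ℝ) ^ h / Real.log X := by positivity
          have := mul_le_mul_of_nonneg_right e1.le h8
          linarith
        have h9 := hN.2
        have h10 : 0 < δ / 2 * (C / 2 * ((X : ℝ) ^ h / Real.log X)) := by positivity
        nlinarith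
    have h1 := card_le_card hsub
    have h2 := h1.trans (card_union_le _ _)
    have h3 : (((Icc 1 X).filter (fun N : ℕ =>
        (4 / τ + δ) * (C / 2 * ((X : ℝ) ^ h / Real.log X)) <
          (primesIn N ⌊(X : ℝ) ^ h⌋₊ : ℝ))).card : ℝ) ≤ ((Ioc 0 M).card : ℝ) +
          (X : ℝ) ^ (2 * τ - h + ε / 2) := by
      refine le_trans ?_ (add_le_add le_rfl hX)
      exact_mod_cast h2
    refine h3.trans ?_
    have h4 : ((Ioc 0 M).card : ℝ) ≤ (X : ℝ) ^ (2 * τ - h + ε / 2) := by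
      rw [Nat.card_Ioc, Nat.sub_zero, hM]
      refine (Nat.floor_le (by positivity)).trans ?_
      apply Real.rpow_le_rpow_of_exponent_le (by linarith)
      linarith
    calc ((Ioc 0 M).card : ℝ) + (X : ℝ) ^ (2 * τ - h + ε / 2) ≤ 2 * (X : ℝ) ^ (2 * τ - h + ε / 2) := by
          linarith
      _ ≤ (X : ℝ) ^ (ε / 2) * (X : ℝ) ^ (2 * τ - h + ε / 2) := by gcongr
      _ = (X : ℝ) ^ (2 * τ - h + ε) := by
          rw [← Real.rpow_add hX0]; congr 1; ring

end Pool.Agent.R498.SU
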